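import Pool.Agent.helper77.SK.Spec

/-!
# Row sk:TC (MP_f6e9a2_nt): Taylor coefficients and derivatives
-/

set_option autoImplicit false

namespace Pool.Agent.SK

open Polynomial Finset

private theorem TC_aux (p : ℕ) [Fact p.Prime] (f : (ZMod p)[X]) (a : ZMod p) (k : ℕ) :
    (derivative^[k] f).eval a = (k.factorial : ZMod p) * tc f a k := by
  unfold tc
  rw [taylor_coeff, ← factorial_smul_hasseDeriv]
  have e : (k.factorial • @hasseDeriv (ZMod p) _ k) f = k.factorial • hasseDeriv k f :=
    LinearMap.smul_apply _ _ _
  rw [e, eval_smul, nsmul_eq_mul]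

theorem TC : TC_stmt := by
  intro p hp f a
  refine ⟨?_, ?_, ?_, ?_, ?_⟩
  · have := TC_aux p f a 0
    simpa using this
  · have := TC_aux p f a 1
    simpa [D1] using this
  · have := TC_aux p f a 2
    simpa [D2, Nat.factorial] using this
  · have := TC_aux p f a 3
    have e : ((Nat.factorial 3 : ℕ) : ZMod p) = 6 := by norm_num [Nat.factorial]
    rw [e] at this
    simpa [D3] using this
  · have := TC_aux p f a 4
    have e : ((Nat.factorial 4 : ℕ) : ZMod p) = 24 := by norm_num [Nat.factorial]
    rw [e] at this
    simpa [D4] using this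

end Pool.Agent.SK
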